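import Pool.Agent.Helper91.CX.Stm2

/-!
# Project CX, package Q1: the chain rule in charts
-/

set_option autoImplicit false

namespace Pool.Agent.Helper34.CX

open Pool.Agent.Helper91.CX
open Metric Set Topology
open scoped Manifold ContDiff

variable {n : ℕ} {X : Type} [TopologicalSpace X] [ChartedSpace (Fin n → ℂ) X]
  [IsManifold 𝓘(ℂ, Fin n → ℂ) ω X]

/-- the domain of the coordinate expression of `F` -/
def DD (F : Aut n X) (φ ψ : Ch n X) : Set (Fin n → ℂ) :=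
  {y | y ∈ φ.target ∧ F (φ.symm y) ∈ ψ.source}

omit [IsManifold 𝓘(ℂ, Fin n → ℂ) ω X] in
theorem DD_open (F : Aut n X) (φ ψ : Ch n X) : IsOpen (DD F φ ψ) :=
  φ.isOpen_inter_preimage_symm (ψ.open_source.preimage F.continuous)

theorem T_cd (F : Aut n X) {φ ψ : Ch n X} (hφ : φ ∈ Charts n X) (hψ : ψ ∈ Charts n X) :
    ContDiffOn ℂ ω (ψ ∘ F ∘ φ.symm) (DD F φ ψ) := by
  rw [← contMDiffOn_iff_contDiffOn]
  have h1 := contMDiffOn_of_mem_maximalAtlas (I := 𝓘(ℂ, Fin n → ℂ)) (n := ω) hψ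
  have h2 := contMDiffOn_symm_of_mem_maximalAtlas (I := 𝓘(ℂ, Fin n → ℂ)) (n := ω) hφ
  have h3 := F.contMDiff.comp_contMDiffOn h2
  exact h1.comp (h3.mono (fun y hy => hy.1)) (fun y hy => hy.2)

omit [IsManifold 𝓘(ℂ, Fin n → ℂ) ω X] in
theorem mem_DD (F : Aut n X) {φ ψ : Ch n X} {x : X} (hx : x ∈ φ.source) (hFx : F x ∈ ψ.source) :
    φ x ∈ DD F φ ψ :=
  ⟨φ.map_source hx, by rw [φ.left_inv hx]; exact hFx⟩

theorem T_diff (F : Aut n X) {φ ψ : Ch n X} (hφ : φ ∈ Charts n X) (hψ : ψ ∈ Charts n X)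
    {y : Fin n → ℂ} (hy : y ∈ DD F φ ψ) : DifferentiableAt ℂ (ψ ∘ F ∘ φ.symm) y :=
  ((T_cd F hφ hψ).differentiableOn (by simp)).differentiableAt
    ((DD_open F φ ψ).mem_nhds hy)

theorem T_fderiv (F : Aut n X) {φ ψ : Ch n X} (hφ : φ ∈ Charts n X) (hψ : ψ ∈ Charts n X) :
    DifferentiableOn ℂ (fderiv ℂ (ψ ∘ F ∘ φ.symm)) (DD F φ ψ) :=
  ((T_cd F hφ hψ).fderiv_of_isOpen (m := 1) (DD_open F φ ψ) le_top).differentiableOn
    (by simp)

theorem der_comp (F F' : Aut n X) {φ ψ χ : Ch n X} (hφ : φ ∈ Charts n X) (hψ : ψ ∈ Charts n X)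
    (hχ : χ ∈ Charts n X) {x : X} (hx : x ∈ φ.source) (hFx : F x ∈ ψ.source)
    (hF'x : F' (F x) ∈ χ.source) :
    der (fun y => F' (F y)) φ χ x = (der F' ψ χ (F x)).comp (der F φ ψ x) := by
  unfold der
  have e : (χ ∘ (fun y => F' (F y)) ∘ φ.symm) =ᶠ[𝓝 (φ x)]
      (χ ∘ F' ∘ ψ.symm) ∘ (ψ ∘ F ∘ φ.symm) := by
    filter_upwards [(DD_open F φ ψ).mem_nhds (mem_DD F hx hFx)] with y hy
    simp only [Function.comp_apply]
    rw [ψ.left_inv hy.2]
  have h1 : (ψ ∘ F ∘ φ.symm) (φ x) = ψ (F x) := by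
    simp only [Function.comp_apply]
    rw [φ.left_inv hx]
  rw [e.fderiv_eq, fderiv_comp _ (by rw [h1]; exact T_diff F' hψ hχ (mem_DD F' hFx hF'x))
    (T_diff F hφ hψ (mem_DD F hx hFx)), h1]

omit [IsManifold 𝓘(ℂ, Fin n → ℂ) ω X] in
theorem der_id {φ : Ch n X} {x : X} (hx : x ∈ φ.source) (v : Fin n → ℂ) :
    der id φ φ x v = v := by
  unfold der
  have e : (φ ∘ id ∘ φ.symm) =ᶠ[𝓝 (φ x)] id := by
    filter_upwards [φ.open_target.mem_nhds (φ.map_source hx)] with y hy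
    simp only [Function.comp_apply, id]
    rw [φ.right_inv hy]
  rw [e.fderiv_eq, fderiv_id]
  rfl

theorem der_inv (F F' : Aut n X) (h : ∀ y, F' (F y) = y) {φ ψ : Ch n X} (hφ : φ ∈ Charts n X)
    (hψ : ψ ∈ Charts n X) {x : X} (hx : x ∈ φ.source) (hFx : F x ∈ ψ.source) (v : Fin n → ℂ) :
    der F' ψ φ (F x) (der F φ ψ x v) = v := by
  have h1 := der_comp F F' hφ hψ hφ hx hFx (by rw [h]; exact hx)
  have h2 : (fun y => F' (F y)) = id := funext h
  rw [h2] at h1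
  have h3 := der_id hx v
  rw [h1] at h3
  exact h3

theorem Tr_eq (F : Aut n X) (φ ψ : Ch n X) (W : Set (Fin n → ℂ)) :
    Tr F φ ψ W = DD F.symm ψ φ ∩ (φ ∘ F.symm ∘ ψ.symm) ⁻¹' W := by
  ext z
  simp only [Tr, DD, cc, mem_setOf_eq, mem_inter_iff, mem_preimage, Function.comp_apply]
  tauto

/-- Q1. -/
theorem chart : S_Chart n X := by
  refine ⟨?_, ?_, ?_, ?_⟩
  · intro F F' φ hφ ψ hψ χ hχ x hx hFx hF'x v
    rw [der_comp F F' hφ hψ hχ hx hFx hF'x]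
    rfl
  · intro φ _ x hx v
    exact der_id hx v
  · intro F φ hφ ψ hψ x hx hFx v
    refine ⟨der_inv F F.symm (fun y => F.toEquiv.symm_apply_apply y) hφ hψ hx hFx v, ?_⟩
    have h1 : F.symm (F x) = x := F.toEquiv.symm_apply_apply x
    have h2 := der_inv F.symm F (fun y => F.toEquiv.apply_symm_apply y) hψ hφ hFx
      (by rw [h1]; exact hx) v
    rwa [h1] at h2
  · intro F φ hφ ψ hψ W hW hWt
    have hcd := T_cd F.symm hψ hφ
    have hopen : IsOpen (Tr F φ ψ W) := by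
      rw [Tr_eq]
      exact hcd.continuousOn.isOpen_inter_preimage (DD_open F.symm ψ φ) hW
    have hcc : DifferentiableOn ℂ (cc F φ ψ) (Tr F φ ψ W) := by
      have h1 := hcd.differentiableOn (by simp)
      exact h1.mono fun z hz => ⟨hz.1, hz.2.1⟩
    refine ⟨hopen, fun g hg => hg.comp hcc fun z hz => hz.2.2, fun k V hV i j => ?_⟩
    have h1 : DifferentiableOn ℂ (fun w => (fderiv ℂ (ψ ∘ F ∘ φ.symm) w (V w i)) j)
        (W ∩ DD F φ ψ) := by
      have h2 : DifferentiableOn ℂ (fun w => V w i) (W ∩ DD F φ ψ) :=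
        differentiableOn_pi.2 fun l => (hV i l).mono inter_subset_left
      have h3 := ((T_fderiv F hφ hψ).mono inter_subset_right).clm_apply h2
      exact (differentiableOn_pi.1 h3) j
    have h2 : ∀ z ∈ Tr F φ ψ W, cc F φ ψ z ∈ W ∩ DD F φ ψ := by
      intro z hz
      refine ⟨hz.2.2, φ.map_source hz.2.1, ?_⟩
      have h3 : φ.symm (cc F φ ψ z) = F.symm (ψ.symm z) := φ.left_inv hz.2.1
      rw [h3]
      have h4 : F (F.symm (ψ.symm z)) = ψ.symm z := F.toEquiv.apply_symm_apply _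
      rw [h4]
      exact ψ.map_target hz.1
    have h3 := h1.comp hcc h2
    exact h3

end Pool.Agent.Helper34.CX
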