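import Pool.Agent.Helper34.CX.Chart

/-!
# Project CX, package Q3: the pull-back of a section
-/

set_option autoImplicit false

namespace Pool.Agent.Helper34.CX

open Pool.Agent.Helper91.CX
open Metric Set Topology
open scoped Manifold ContDiff

variable {n : ℕ} {X : Type} [TopologicalSpace X] [ChartedSpace (Fin n → ℂ) X]
  [IsManifold 𝓘(ℂ, Fin n → ℂ) ω X]

theorem chartAt_mem (x : X) : chartAt (Fin n → ℂ) x ∈ Charts n X :=
  IsManifold.chart_mem_maximalAtlas x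

theorem der_inj (F : Aut n X) {φ ψ : Ch n X} (hφ : φ ∈ Charts n X) (hψ : ψ ∈ Charts n X) {x : X}
    (hx : x ∈ φ.source) (hFx : F x ∈ ψ.source) : Function.Injective (der F φ ψ x) := by
  intro v w hvw
  have h := chart.2.2.1 F φ hφ ψ hψ x hx hFx
  rw [← (h v).1, ← (h w).1, hvw]

theorem fr_map {M : Set X} {𝓕 : Ch n X → X → Submodule ℂ (Fin n → ℂ)} {r : ℕ}
    (hd : IsDist M 𝓕 r) (F : Aut n X) {φ ψ : Ch n X} (hφ : φ ∈ Charts n X) (hψ : ψ ∈ Charts n X)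
    {x : X} (hx : x ∈ φ.source) (hxM : x ∈ M) (hFx : F x ∈ ψ.source) {e : Fin r → Fin n → ℂ}
    (he : Fr 𝓕 φ x e) : Fr 𝓕 ψ (F x) (fun i => der F φ ψ x (e i)) := by
  refine ⟨?_, ?_⟩
  · exact he.1.map' (der F φ ψ x : (Fin n → ℂ) →ₗ[ℂ] (Fin n → ℂ))
      (LinearMap.ker_eq_bot.2 (der_inj F hφ hψ hx hFx))
  · rw [hd.nat F φ hφ ψ hψ x hx hxM hFx, ← he.2, Submodule.map_span]
    congr 1
    rw [← range_comp]
    rfl

theorem mv_map {r : ℕ} (C : Matrix (Fin r) (Fin r) ℂ) (e : Fin r → Fin n → ℂ)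
    (D : (Fin n → ℂ) →L[ℂ] (Fin n → ℂ)) :
    (fun i => D (mv C e i)) = mv C (fun i => D (e i)) := by
  funext i
  unfold mv
  rw [map_sum]
  exact Finset.sum_congr rfl fun j _ => map_smul D _ _

theorem pull_eq {M : Set X} {𝓕 : Ch n X → X → Submodule ℂ (Fin n → ℂ)} {r : ℕ} {L : Law r}
    {s : Ch n X → X → (Fin r → Fin n → ℂ) → L.Ix → ℂ} (hd : IsDist M 𝓕 r)
    (hs : IsSec L M 𝓕 s) (F : Aut n X) {φ ψ : Ch n X} (hφ : φ ∈ Charts n X)
    (hψ : ψ ∈ Charts n X) {x : X} (hx : x ∈ φ.source) (hxM : x ∈ M) (hFx : F x ∈ ψ.source)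
    {e : Fin r → Fin n → ℂ} (he : Fr 𝓕 φ x e) :
    pull F s φ x e = s ψ (F x) (fun i => der F φ ψ x (e i)) := by
  unfold pull
  have hχ := chartAt_mem (n := n) (F x)
  have hFχ : F x ∈ (chartAt (Fin n → ℂ) (F x)).source := mem_chart_source _ _
  have h1 := hs.nat _ hχ ψ hψ (F x) hFχ hFx (hd.inv F x hxM) _
    (fr_map hd F hφ hχ hx hxM hFχ he)
  rw [← h1]
  congr 1
  funext i
  have h2 := chart.1 F (Diffeomorph.refl 𝓘(ℂ, Fin n → ℂ) X ω) φ hφ _ hχ ψ hψ x hx hFχ hFx (e i)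
  exact h2.symm

/-- Q3. -/
theorem pullSec : S_Pull n X := by
  intro M 𝓕 r L s F hd hs
  refine ⟨⟨?_, ?_, ?_⟩, fun φ hφ ψ hψ x hx hxM hFx e he => pull_eq hd hs F hφ hψ hx hxM hFx he⟩
  · intro φ hφ x hx hxM e he C hC J
    unfold pull
    have hχ := chartAt_mem (n := n) (F x)
    have hFχ : F x ∈ (chartAt (Fin n → ℂ) (F x)).source := mem_chart_source _ _
    rw [mv_map]
    exact hs.law _ hχ (F x) hFχ (hd.inv F x hxM) _ (fr_map hd F hφ hχ hx hxM hFχ he) C hC J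
  · intro φ hφ ψ hψ x hx hxψ hxM e he
    unfold pull
    have hχ := chartAt_mem (n := n) (F x)
    have hFχ : F x ∈ (chartAt (Fin n → ℂ) (F x)).source := mem_chart_source _ _
    congr 1
    funext i
    have h2 := chart.1 (Diffeomorph.refl 𝓘(ℂ, Fin n → ℂ) X ω) F φ hφ ψ hψ _ hχ x hx hxψ hFχ (e i)
    exact h2.symm
  · intro φ hφ W e hW he hfr I y0 hy0
    have hx0 : φ.symm y0 ∈ φ.source := φ.map_target (hW.2.1 hy0)
    set ψ : Ch n X := chartAt (Fin n → ℂ) (F (φ.symm y0)) with hψd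
    have hψ : ψ ∈ Charts n X := chartAt_mem _
    obtain ⟨hopen, -, hHol⟩ := chart.2.2.2 F φ hφ ψ hψ W hW.1 hW.2.1
    have hfz : ∀ z ∈ Tr F φ ψ W, φ.symm (cc F φ ψ z) = F.symm (ψ.symm z) := fun z hz =>
      φ.left_inv hz.2.1
    have hFF : ∀ z, F (F.symm (ψ.symm z)) = ψ.symm z := fun z => F.toEquiv.apply_symm_apply _
    have hdom : Dom ψ M (Tr F φ ψ W) := by
      refine ⟨hopen, fun z hz => hz.1, fun z hz => ?_⟩
      have h1 : F.symm (ψ.symm z) ∈ M := by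
        rw [← hfz z hz]
        exact hW.2.2 _ hz.2.2
      have h2 := hd.inv F _ h1
      rwa [hFF] at h2
    have hfr' : ∀ z ∈ Tr F φ ψ W, Fr 𝓕 ψ (ψ.symm z)
        (fun i => der F φ ψ (F.symm (ψ.symm z)) (e (cc F φ ψ z) i)) := by
      intro z hz
      have h1 : F.symm (ψ.symm z) ∈ M := by
        rw [← hfz z hz]
        exact hW.2.2 _ hz.2.2
      have h3 := hfr _ hz.2.2
      rw [hfz z hz] at h3
      have h2 := fr_map hd F hφ hψ hz.2.1 h1 (by rw [hFF]; exact ψ.map_target hz.1) h3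
      rwa [hFF] at h2
    have hG := hs.hol ψ hψ (Tr F φ ψ W) _ hdom (hHol r e he) hfr' I
    have hT : DifferentiableOn ℂ (ψ ∘ F ∘ φ.symm) (W ∩ DD F φ ψ) :=
      ((T_cd F hφ hψ).differentiableOn (by simp)).mono inter_subset_right
    have hmaps : ∀ y ∈ W ∩ DD F φ ψ, (ψ ∘ F ∘ φ.symm) y ∈ Tr F φ ψ W := by
      intro y hy
      simp only [Function.comp_apply]
      have h1 : ψ.symm (ψ (F (φ.symm y))) = F (φ.symm y) := ψ.left_inv hy.2.2
      have h2 : F.symm (F (φ.symm y)) = φ.symm y := F.toEquiv.symm_apply_apply _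
      refine ⟨ψ.map_source hy.2.2, ?_, ?_⟩
      · rw [h1, h2]
        exact φ.map_target (hW.2.1 hy.1)
      · unfold cc
        rw [h1, h2, φ.right_inv (hW.2.1 hy.1)]
        exact hy.1
    have hcomp := hG.comp hT hmaps
    have hnh : W ∩ DD F φ ψ ∈ 𝓝 y0 :=
      (hW.1.inter (DD_open F φ ψ)).mem_nhds ⟨hy0, hW.2.1 hy0, mem_chart_source _ _⟩
    refine DifferentiableAt.differentiableWithinAt ((hcomp.congr ?_).differentiableAt hnh)
    intro y hy
    have h1 : ψ.symm (ψ (F (φ.symm y))) = F (φ.symm y) := ψ.left_inv hy.2.2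
    have h2 : F.symm (F (φ.symm y)) = φ.symm y := F.toEquiv.symm_apply_apply _
    have h3 : cc F φ ψ (ψ (F (φ.symm y))) = y := by
      unfold cc
      rw [h1, h2, φ.right_inv (hW.2.1 hy.1)]
    simp only [Function.comp_apply]
    rw [h1, h2, h3]
    exact congrFun (pull_eq hd hs F hφ hψ (φ.map_target (hW.2.1 hy.1)) (hW.2.2 _ hy.1) hy.2.2
      (hfr y hy.1)) I

end Pool.Agent.Helper34.CX
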